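import Pool.Agent.Helper41_IR.Stmts

/-!
# IR: module LINE (helper69)
-/

set_option autoImplicit false

open scoped BigOperators

noncomputable section

namespace Pool.Agent.IR.H69

open Pool.Agent.IR

theorem sum_union_le {f : ℤ → ℝ} (hf : ∀ t, 0 ≤ f t) (A B : Finset ℤ) :
    ∑ t ∈ A ∪ B, f t ≤ ∑ t ∈ A, f t + ∑ t ∈ B, f t := by
  have h := Finset.sum_union_inter (s₁ := A) (s₂ := B) (f := f)
  have h2 : 0 ≤ ∑ t ∈ A ∩ B, f t := Finset.sum_nonneg fun t _ => hf t
  linarith

theorem log_step (u δ : ℝ) (hu : 0 < u) (hδ : 0 < δ) :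
    1 / (u + δ / 2) ≤ 2 / δ * (Real.log (u + δ / 2) - Real.log u) := by
  have h1 := Real.one_sub_inv_le_log_of_pos (x := (u + δ / 2) / u) (by positivity)
  rw [Real.log_div (by positivity) hu.ne', inv_div] at h1
  have h2 : 1 - u / (u + δ / 2) = δ / 2 / (u + δ / 2) := by
    field_simp
    ring
  rw [h2] at h1
  have h3 : 1 / (u + δ / 2) = 2 / δ * (δ / 2 / (u + δ / 2)) := by
    field_simp
  rw [h3]
  exact mul_le_mul_of_nonneg_left h1 (by positivity)

theorem sum_log (δ ε : ℝ) (hδ : 0 < δ) (hε : 0 < ε) (N : ℕ) :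
    ∑ n ∈ Finset.Icc 1 N, 1 / (ε + δ * n / 2) ≤
      2 / δ * (Real.log (ε + δ * N / 2) - Real.log ε) := by
  induction N with
  | zero => simp
  | succ N ih =>
    rw [Finset.sum_Icc_succ_top (by omega)]
    have h := log_step (ε + δ * N / 2) δ (by positivity) hδ
    have h2 : ε + δ * ((N + 1 : ℕ) : ℝ) / 2 = ε + δ * N / 2 + δ / 2 := by
      push_cast; ring
    rw [h2]
    calc _ ≤ 2 / δ * (Real.log (ε + δ * N / 2) - Real.log ε) +
          2 / δ * (Real.log (ε + δ * N / 2 + δ / 2) - Real.log (ε + δ * N / 2)) := add_le_add ih h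
      _ = _ := by ring

theorem line : LineStmt := by
  intro T y δ ε N hδ hε hsep hN
  have hlog : 0 ≤ Real.log (1 + N * δ / ε) := Real.log_nonneg (by
    have : 0 ≤ N * δ / ε := by positivity
    linarith)
  rcases T.eq_empty_or_nonempty with h0 | hne
  · subst h0
    rw [Finset.sum_empty]
    positivity
  obtain ⟨t0, ht0, hmin⟩ := Finset.exists_min_image T (fun t => |y t|) hne
  -- the comparison function
  set g : ℤ → ℝ := fun t => Real.sqrt 2 / (ε + δ * (|t - t0| : ℤ) / 2) with hg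
  have hgpos : ∀ t, 0 ≤ g t := by
    intro t
    have : (0 : ℝ) ≤ ((|t - t0| : ℤ) : ℝ) := by exact_mod_cast abs_nonneg _
    simp only [hg]
    positivity
  have hb : ∀ t ∈ T, 1 / Real.sqrt (y t ^ 2 + ε ^ 2) ≤ g t := by
    intro t ht
    have h1 : δ * |(t : ℝ) - t0| ≤ 2 * |y t| := by
      have e1 := hsep t ht t0 ht0
      have e2 := hmin t ht
      have e3 := abs_sub (y t) (y t0)
      linarith
    have h2 : ((|t - t0| : ℤ) : ℝ) = |(t : ℝ) - t0| := by push_cast; rfl
    have h3 : ε + δ * ((|t - t0| : ℤ) : ℝ) / 2 ≤ ε + |y t| := by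
      rw [h2]; linarith
    have h4 : (ε + |y t|) / Real.sqrt 2 ≤ Real.sqrt (y t ^ 2 + ε ^ 2) := by
      apply Real.le_sqrt_of_sq_le
      rw [div_pow, Real.sq_sqrt (by norm_num)]
      have := sq_abs (y t)
      nlinarith [sq_nonneg (ε - |y t|)]
    have hpos : 0 < ε + |y t| := by positivity
    have hnn : (0 : ℝ) ≤ ((|t - t0| : ℤ) : ℝ) := by exact_mod_cast abs_nonneg _
    have hpos2 : 0 < ε + δ * ((|t - t0| : ℤ) : ℝ) / 2 := by positivity
    have hs2 : 0 < Real.sqrt 2 := by positivity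
    calc 1 / Real.sqrt (y t ^ 2 + ε ^ 2) ≤ 1 / ((ε + |y t|) / Real.sqrt 2) :=
          one_div_le_one_div_of_le (by positivity) h4
      _ = Real.sqrt 2 / (ε + |y t|) := by field_simp
      _ ≤ g t := by
          simp only [hg]
          exact div_le_div_of_nonneg_left hs2.le hpos2 h3
  have hb0 : 1 / Real.sqrt (y t0 ^ 2 + ε ^ 2) ≤ 1 / ε := by
    apply one_div_le_one_div_of_le hε
    apply Real.le_sqrt_of_sq_le
    nlinarith [sq_nonneg (y t0)]
  -- the sets
  set A : Finset ℤ := (Finset.Icc 1 N).image fun n : ℕ => t0 + (n : ℤ) with hA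
  set B : Finset ℤ := (Finset.Icc 1 N).image fun n : ℕ => t0 - (n : ℤ) with hB
  have hsub : T.erase t0 ⊆ A ∪ B := by
    intro t ht
    have ht1 := Finset.ne_of_mem_erase ht
    have ht2 := Finset.mem_of_mem_erase ht
    have h5 := hN t ht2 t0 ht0
    rw [Finset.mem_union, hA, hB, Finset.mem_image, Finset.mem_image]
    rcases lt_or_gt_of_ne ht1 with h6 | h6
    · right
      refine ⟨(t0 - t).toNat, ?_, ?_⟩
      · rw [Finset.mem_Icc]
        rw [abs_sub_comm, abs_of_pos (by omega)] at h5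
        omega
      · have : ((t0 - t).toNat : ℤ) = t0 - t := Int.toNat_of_nonneg (by omega)
        rw [this]; ring
    · left
      refine ⟨(t - t0).toNat, ?_, ?_⟩
      · rw [Finset.mem_Icc]
        rw [abs_of_pos (by omega)] at h5
        omega
      · have : ((t - t0).toNat : ℤ) = t - t0 := Int.toNat_of_nonneg (by omega)
        rw [this]; ring
  have hsumA : ∑ t ∈ A, g t = Real.sqrt 2 * ∑ n ∈ Finset.Icc 1 N, 1 / (ε + δ * n / 2) := by
    rw [hA, Finset.sum_image (fun a _ b _ h => by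
      have : (a : ℤ) = b := by linarith
      exact_mod_cast this), Finset.mul_sum]
    apply Finset.sum_congr rfl
    intro n _
    simp only [hg]
    rw [add_sub_cancel_left, Nat.abs_cast, Int.cast_natCast, mul_one_div]
  have hsumB : ∑ t ∈ B, g t = Real.sqrt 2 * ∑ n ∈ Finset.Icc 1 N, 1 / (ε + δ * n / 2) := by
    rw [hB, Finset.sum_image (fun a _ b _ h => by
      have : (a : ℤ) = b := by linarith
      exact_mod_cast this), Finset.mul_sum]
    apply Finset.sum_congr rfl
    intro n _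
    simp only [hg]
    rw [sub_sub_cancel_left, abs_neg, Nat.abs_cast, Int.cast_natCast, mul_one_div]
  have hS := sum_log δ ε hδ hε N
  have hlog2 : Real.log (ε + δ * N / 2) - Real.log ε ≤ Real.log (1 + N * δ / ε) := by
    rw [← Real.log_div (by positivity) hε.ne']
    apply Real.log_le_log (by positivity)
    rw [div_le_iff₀ hε]
    have : (1 + N * δ / ε) * ε = ε + N * δ := by field_simp
    rw [this]
    have : (0 : ℝ) ≤ δ * N := by positivity
    nlinarith
  have hsq : Real.sqrt 2 ≤ 3 / 2 := by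
    rw [Real.sqrt_le_left (by norm_num)]
    norm_num
  have hS0 : 0 ≤ ∑ n ∈ Finset.Icc 1 N, 1 / (ε + δ * (n : ℝ) / 2) :=
    Finset.sum_nonneg fun n _ => by positivity
  calc ∑ t ∈ T, 1 / Real.sqrt (y t ^ 2 + ε ^ 2)
      = 1 / Real.sqrt (y t0 ^ 2 + ε ^ 2) + ∑ t ∈ T.erase t0, 1 / Real.sqrt (y t ^ 2 + ε ^ 2) :=
        (Finset.add_sum_erase T _ ht0).symm
    _ ≤ 1 / ε + ∑ t ∈ T.erase t0, g t :=
        add_le_add hb0 (Finset.sum_le_sum fun t ht => hb t (Finset.mem_of_mem_erase ht))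
    _ ≤ 1 / ε + ∑ t ∈ A ∪ B, g t :=
        add_le_add le_rfl (Finset.sum_le_sum_of_subset_of_nonneg hsub fun t _ _ => hgpos t)
    _ ≤ 1 / ε + (∑ t ∈ A, g t + ∑ t ∈ B, g t) :=
        add_le_add le_rfl (sum_union_le hgpos A B)
    _ = 1 / ε + 2 * (Real.sqrt 2 * ∑ n ∈ Finset.Icc 1 N, 1 / (ε + δ * (n : ℝ) / 2)) := by
        rw [hsumA, hsumB]; ring
    _ ≤ 1 / ε + 2 * (3 / 2 * (2 / δ * Real.log (1 + N * δ / ε))) := by
        have h8 := hS.trans (mul_le_mul_of_nonneg_left hlog2 (by positivity))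
        have h9 := mul_le_mul hsq h8 hS0 (by norm_num)
        linarith
    _ ≤ 2 / ε + 6 / δ * Real.log (1 + N * δ / ε) := by
        have : 1 / ε ≤ 2 / ε := by gcongr; norm_num
        have h7 : 2 * (3 / 2 * (2 / δ * Real.log (1 + N * δ / ε))) =
            6 / δ * Real.log (1 + N * δ / ε) := by ring
        rw [h7]
        linarith

end Pool.Agent.IR.H69
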