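import Pool.Agent.Helper41_IR.Stmts

/-!
# IR: module MOM (helper69)
-/

set_option autoImplicit false

open scoped BigOperators

noncomputable section

namespace Pool.Agent.IR.H69

open Pool.Agent.IR Pool.Agent.Anderson Pool.Agent.Loc Pool.Agent.BED

/-- one-dimensional sum -/
theorem sum_one (M : ℕ) [NeZero M] (a : ℝ) (ha : 0 < a) :
    ∑ t : ZMod M, Real.exp (-(a * (t.valMinAbs.natAbs : ℝ))) ≤ 2 * (1 + 1 / a) := by
  set q : ℝ := Real.exp (-a) with hq
  have hq0 : 0 < q := Real.exp_pos _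
  have hq1 : q < 1 := by rw [hq, Real.exp_lt_one_iff]; linarith
  have hF : ∀ n : ℕ, Real.exp (-(a * (n : ℝ))) = q ^ n := by
    intro n
    rw [hq, ← Real.exp_nat_mul]
    ring_nf
  have hgeo : ∀ K : ℕ, ∑ n ∈ Finset.range K, q ^ n ≤ 1 + 1 / a := by
    intro K
    have h1 : ∑ n ∈ Finset.range K, q ^ n ≤ (1 - q)⁻¹ := by
      rw [← tsum_geometric_of_lt_one hq0.le hq1]
      exact (summable_geometric_of_lt_one hq0.le hq1).sum_le_tsum _
        fun n _ => by positivity
    have h2 : 1 / (1 + 1 / a) ≤ 1 - q := by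
      have h3 : q ≤ 1 / (1 + a) := by
        rw [hq, Real.exp_neg, ← one_div]
        exact one_div_le_one_div_of_le (by positivity) (by linarith [Real.add_one_le_exp a])
      have h4 : 1 / (1 + 1 / a) = 1 - 1 / (1 + a) := by
        field_simp
        ring
      rw [h4]
      linarith
    have h5 : (1 - q)⁻¹ ≤ 1 + 1 / a := by
      have h6 : 0 < 1 + 1 / a := by positivity
      rw [inv_le_comm₀ (by linarith) h6, ← one_div]
      exact h2
    exact h1.trans h5
  -- pass to the integers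
  set G : ℤ → ℝ := fun z => Real.exp (-(a * (z.natAbs : ℝ))) with hG
  have hGpos : ∀ z, 0 ≤ G z := fun z => (Real.exp_pos _).le
  have hinj : Function.Injective (fun t : ZMod M => t.valMinAbs) := ZMod.injective_valMinAbs
  have h1 : ∑ t : ZMod M, Real.exp (-(a * (t.valMinAbs.natAbs : ℝ))) =
      ∑ z ∈ (Finset.univ : Finset (ZMod M)).image (fun t : ZMod M => t.valMinAbs), G z := by
    rw [Finset.sum_image (fun x _ y _ h => hinj h)]
  set A : Finset ℤ := (Finset.range (M + 1)).image fun n : ℕ => (n : ℤ) with hA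
  set B : Finset ℤ := (Finset.range (M + 1)).image fun n : ℕ => -(n : ℤ) with hB
  have hsub : (Finset.univ : Finset (ZMod M)).image (fun t : ZMod M => t.valMinAbs) ⊆ A ∪ B := by
    intro z hz
    obtain ⟨t, -, rfl⟩ := Finset.mem_image.mp hz
    have h2 : t.valMinAbs.natAbs ≤ M / 2 := ZMod.natAbs_valMinAbs_le t
    have h3 : M / 2 ≤ M := Nat.div_le_self _ _
    rw [Finset.mem_union, hA, hB, Finset.mem_image, Finset.mem_image]
    rcases le_total 0 t.valMinAbs with h4 | h4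
    · left
      refine ⟨t.valMinAbs.natAbs, Finset.mem_range.mpr (by omega), ?_⟩
      exact Int.natAbs_of_nonneg h4
    · right
      refine ⟨t.valMinAbs.natAbs, Finset.mem_range.mpr (by omega), ?_⟩
      rw [Int.ofNat_natAbs_of_nonpos h4, neg_neg]
  have hsumA : ∑ z ∈ A, G z = ∑ n ∈ Finset.range (M + 1), q ^ n := by
    rw [hA, Finset.sum_image (fun a _ b _ h => by exact_mod_cast h)]
    apply Finset.sum_congr rfl
    intro n _
    simp only [hG]
    rw [Int.natAbs_natCast, hF]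
  have hsumB : ∑ z ∈ B, G z = ∑ n ∈ Finset.range (M + 1), q ^ n := by
    rw [hB, Finset.sum_image (fun a _ b _ h => by
      have := neg_injective h
      exact_mod_cast this)]
    apply Finset.sum_congr rfl
    intro n _
    simp only [hG]
    rw [Int.natAbs_neg, Int.natAbs_natCast, hF]
  rw [h1]
  have hunion : ∑ z ∈ A ∪ B, G z ≤ ∑ z ∈ A, G z + ∑ z ∈ B, G z := by
    have h := Finset.sum_union_inter (s₁ := A) (s₂ := B) (f := G)
    have h2 : 0 ≤ ∑ t ∈ A ∩ B, G t := Finset.sum_nonneg fun t _ => hGpos t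
    linarith
  calc _ ≤ ∑ z ∈ A ∪ B, G z := Finset.sum_le_sum_of_subset_of_nonneg hsub fun z _ _ => hGpos z
    _ ≤ ∑ z ∈ A, G z + ∑ z ∈ B, G z := hunion
    _ ≤ (1 + 1 / a) + (1 + 1 / a) := by
        rw [hsumA, hsumB]
        exact add_le_add (hgeo _) (hgeo _)
    _ = 2 * (1 + 1 / a) := by ring

theorem sum_all (d M : ℕ) [NeZero M] (a : ℝ) (ha : 0 < a) :
    ∑ y : Tor d M, Real.exp (-(a * (nd y : ℝ))) ≤ (2 * (1 + 1 / a)) ^ d := by
  have h1 : ∀ y : Tor d M, Real.exp (-(a * (nd y : ℝ))) =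
      ∏ i, Real.exp (-(a * ((y i).valMinAbs.natAbs : ℝ))) := by
    intro y
    rw [← Real.exp_sum]
    congr 1
    unfold nd
    push_cast
    rw [Finset.mul_sum, Finset.sum_neg_distrib]
  have h2 : ∑ y : Tor d M, Real.exp (-(a * (nd y : ℝ))) =
      ∏ _i : Fin d, ∑ t : ZMod M, Real.exp (-(a * (t.valMinAbs.natAbs : ℝ))) := by
    rw [Finset.prod_univ_sum, Fintype.piFinset_univ]
    exact Finset.sum_congr rfl fun y _ => h1 y
  rw [h2, Finset.prod_const, Finset.card_univ, Fintype.card_fin]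
  exact pow_le_pow_left₀ (Finset.sum_nonneg fun t _ => (Real.exp_pos _).le) (sum_one M a ha) d

theorem pow_le_exp (d : ℕ) (hd : 1 ≤ d) (x : ℝ) (hx : 0 ≤ x) (k : ℕ) (hk : k ≤ 4) :
    x ^ k ≤ (1 + 24 * (6 * (d : ℝ)) ^ 4) * Real.exp (x / (6 * d)) := by
  have hd' : (1 : ℝ) ≤ d := by exact_mod_cast hd
  have hd0 : (0 : ℝ) < 6 * d := by positivity
  have h1 : x ^ k ≤ 1 + x ^ 4 := by
    rcases le_total x 1 with h | h
    · have : x ^ k ≤ 1 := pow_le_one₀ hx h
      have : 0 ≤ x ^ 4 := by positivity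
      linarith
    · have : x ^ k ≤ x ^ 4 := pow_le_pow_right₀ h hk
      linarith
  have h2 : x ^ 4 ≤ 24 * (6 * (d : ℝ)) ^ 4 * Real.exp (x / (6 * d)) := by
    have h3 := Real.pow_div_factorial_le_exp (x / (6 * d)) (by positivity) 4
    have h4 : ((4 : ℕ).factorial : ℝ) = 24 := by norm_num [Nat.factorial]
    rw [h4, div_pow, div_div, div_le_iff₀ (by positivity)] at h3
    linarith
  have h5 : 1 ≤ Real.exp (x / (6 * d)) := Real.one_le_exp (by positivity)
  linarith

theorem mom : MomStmt := by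
  intro d hd C hC
  have hd' : (1 : ℝ) ≤ d := by exact_mod_cast hd
  refine ⟨C * (1 + 24 * (6 * (d : ℝ)) ^ 4) * (2 * (1 + 6 * d)) ^ d, by positivity, ?_⟩
  intro M l _ b hl hb k hk
  have hl' : (1 : ℝ) ≤ l := by exact_mod_cast hl
  have hld : (0 : ℝ) < (l : ℝ) ^ d := by positivity
  set a : ℝ := 1 / (6 * d * l) with ha
  have ha0 : 0 < a := by positivity
  have h1 : ∀ y : Tor d M, |b y| * ((nd y : ℝ) / l) ^ k ≤
      C * (1 + 24 * (6 * (d : ℝ)) ^ 4) / (l : ℝ) ^ d * Real.exp (-(a * (nd y : ℝ))) := by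
    intro y
    have hx : (0 : ℝ) ≤ (nd y : ℝ) / l := by positivity
    have e1 : |b y| ≤ C / (l : ℝ) ^ d * Real.exp (-((nd y : ℝ) / (3 * d * l))) := by
      rw [div_mul_eq_mul_div, le_div_iff₀ hld, mul_comm]
      exact hb y
    have e2 := pow_le_exp d hd ((nd y : ℝ) / l) hx k hk
    have e3 : Real.exp (-((nd y : ℝ) / (3 * d * l))) * Real.exp ((nd y : ℝ) / l / (6 * d)) =
        Real.exp (-(a * (nd y : ℝ))) := by
      rw [← Real.exp_add]
      congr 1
      rw [ha]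
      field_simp
      ring
    calc |b y| * ((nd y : ℝ) / l) ^ k ≤ (C / (l : ℝ) ^ d * Real.exp (-((nd y : ℝ) / (3 * d * l)))) *
          ((1 + 24 * (6 * (d : ℝ)) ^ 4) * Real.exp ((nd y : ℝ) / l / (6 * d))) :=
          mul_le_mul e1 e2 (by positivity) (by positivity)
      _ = C * (1 + 24 * (6 * (d : ℝ)) ^ 4) / (l : ℝ) ^ d *
          (Real.exp (-((nd y : ℝ) / (3 * d * l))) * Real.exp ((nd y : ℝ) / l / (6 * d))) := by ring
      _ = _ := by rw [e3]
  calc ∑ y, |b y| * ((nd y : ℝ) / l) ^ k ≤ ∑ y : Tor d M,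
        C * (1 + 24 * (6 * (d : ℝ)) ^ 4) / (l : ℝ) ^ d * Real.exp (-(a * (nd y : ℝ))) :=
        Finset.sum_le_sum fun y _ => h1 y
    _ = C * (1 + 24 * (6 * (d : ℝ)) ^ 4) / (l : ℝ) ^ d *
          ∑ y : Tor d M, Real.exp (-(a * (nd y : ℝ))) := by rw [Finset.mul_sum]
    _ ≤ C * (1 + 24 * (6 * (d : ℝ)) ^ 4) / (l : ℝ) ^ d * (2 * (1 + 1 / a)) ^ d :=
        mul_le_mul_of_nonneg_left (sum_all d M a ha0) (by positivity)
    _ ≤ C * (1 + 24 * (6 * (d : ℝ)) ^ 4) / (l : ℝ) ^ d * ((2 * (1 + 6 * d)) * l) ^ d := by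
        apply mul_le_mul_of_nonneg_left _ (by positivity)
        apply pow_le_pow_left₀ (by positivity)
        rw [ha, one_div_one_div]
        nlinarith
    _ = C * (1 + 24 * (6 * (d : ℝ)) ^ 4) * (2 * (1 + 6 * d)) ^ d := by
        rw [mul_pow (2 * (1 + 6 * (d : ℝ))) (l : ℝ) d]
        generalize (2 * (1 + 6 * (d : ℝ))) ^ d = Y
        field_simp

end Pool.Agent.IR.H69
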